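import Mathlib

/-!
# The multiplier of a doubly-derived palintiple is the base of the original palintiple

Let `p` be a shifted-symmetric `(n, b)`-palintiple with digits `d_k, …, d_0` and first carry `c`, so
`d_k = n d_0 + c` and `n d_k = d_0 + b c`.  For a doubly-derived `(n', b')`-palintiple the equations for
the columns `0`, `1`, `k + 1`, `k + 2` give `d_0 (d_k + n' d_0) = q (n' ^ 2 - 1)` with an integer `q`.
Then `c d_0 = z (n' + n) + q (n ^ 2 - 1)` with `z = q (n' - n) - d_0 ^ 2`, and the bounds `c < n`,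
`d_k < n'` for the carries force `z = 0`, which is `n' = b`.
-/

set_option autoImplicit false

open Finset

namespace Pool.Agent.Results.MP_6bbb8b_nt.MultiplierIsBase

/-- The digits `d 0, …, d k` in base `b` (with `d 0` the last digit, `d 0 ≠ 0`, `k ≥ 1`) form an
`(n, b)`-palintiple, `1 < n < b`: the number `(d k, …, d 0)_b` is `n` times its reversal
`(d 0, …, d k)_b`. -/
def IsPalintiple (n b k : ℕ) (d : ℕ → ℕ) : Prop :=
  1 < n ∧ n < b ∧ 3 ≤ b ∧ 1 ≤ k ∧ (∀ j ≤ k, d j < b) ∧ d 0 ≠ 0 ∧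
    ∑ j ∈ range (k + 1), d j * b ^ j = n * ∑ j ∈ range (k + 1), d (k - j) * b ^ j

/-- `c 0, …, c (k + 1)` are the carries of the multiplication of the reversal
`(d 0, …, d k)_b` by `n`, column by column. -/
def IsCarries (n b k : ℕ) (d c : ℕ → ℕ) : Prop :=
  c 0 = 0 ∧ c (k + 1) = 0 ∧ ∀ j ≤ k, n * d (k - j) + c j = d j + b * c (j + 1)

/-- The palintiple is shifted-symmetric: `c j = c (k - j + 1)` for `0 ≤ j ≤ k`. -/
def ShiftedSymmetric (k : ℕ) (c : ℕ → ℕ) : Prop := ∀ j ≤ k, c j = c (k - j + 1)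

/-- The carries `c'` of a `(k + 3)`-digit palintiple are `(0, d k, …, d 0, 0)`, that is
`c' 0 = 0`, `c' (j + 1) = d j` for `0 ≤ j ≤ k` and `c' (k + 2) = 0`. -/
def CarriesAreDigits (k : ℕ) (d c' : ℕ → ℕ) : Prop :=
  c' 0 = 0 ∧ (∀ j ≤ k, c' (j + 1) = d j) ∧ c' (k + 2) = 0

/-- carries are smaller than the multiplier -/
lemma carry_lt {n b k : ℕ} {d c : ℕ → ℕ} (hn : 0 < n) (hd : ∀ j ≤ k, d j < b)
    (hc : IsCarries n b k d c) : ∀ j ≤ k + 1, c j < n := by
  intro j
  induction j with
  | zero => intro _; rw [hc.1]; exact hn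
  | succ j ih =>
    intro hj
    have h1 := ih (by omega)
    have h2 := hc.2.2 j (by omega)
    have h3 := hd (k - j) (by omega)
    by_contra hcon
    rw [not_lt] at hcon
    have h4 : b * n ≤ b * c (j + 1) := Nat.mul_le_mul_left _ hcon
    have h5 : n * (d (k - j) + 1) ≤ n * b := Nat.mul_le_mul_left _ h3
    nlinarith

/-- the arithmetic core -/
lemma core {n x b c d e q : ℤ} (hn : 1 < n) (hc1 : 1 ≤ c) (hcn : c < n) (hd : 1 ≤ d)
    (he : e = n * d + c) (hb : n * e = d + b * c) (hx : e < x)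
    (hq : d * (e + x * d) = q * (x ^ 2 - 1)) : x = b := by
  have hnd : 0 < n * d := by positivity
  have hx1 : 1 < x := by nlinarith
  have hqpos : 0 < q := by
    have h1 : 0 < d * (e + x * d) := by
      have : 0 < e := by linarith
      positivity
    rw [hq] at h1
    have h2 : 0 < x ^ 2 - 1 := by nlinarith
    by_contra hcon
    have h3 : q ≤ 0 := not_lt.1 hcon
    nlinarith [mul_nonneg (neg_nonneg.2 h3) h2.le]
  obtain ⟨z, hz⟩ : ∃ z, z = q * (x - n) - d ^ 2 := ⟨_, rfl⟩
  have key : c * d = z * (x + n) + q * (n ^ 2 - 1) := by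
    rw [hz]; rw [he] at hq; linear_combination hq
  rcases lt_trichotomy z 0 with h | h | h
  · exfalso
    have h1 : z ≤ -1 := by omega
    have hxn : 0 < x + n := by linarith
    have h2 : x + n + c * d ≤ q * (n ^ 2 - 1) := by nlinarith
    have h3 : q * (x - n) ≤ d ^ 2 - 1 := by linarith
    have h4 : n * (d - 1) + 2 ≤ x - n := by nlinarith
    have h4' : 0 < x - n := by nlinarith
    have h5 : n * (d + 1) + 2 + d ≤ x + n + c * d := by nlinarith
    have h6 : (n * (d + 1) + 2 + d) * (n * (d - 1) + 2) ≤ (x + n + c * d) * (x - n) := by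
      apply mul_le_mul h5 h4
      · nlinarith
      · nlinarith
    have h7 : (x + n + c * d) * (x - n) ≤ (q * (n ^ 2 - 1)) * (x - n) :=
      mul_le_mul_of_nonneg_right h2 h4'.le
    have h8 : (q * (n ^ 2 - 1)) * (x - n) ≤ (n ^ 2 - 1) * (d ^ 2 - 1) := by
      have : (q * (n ^ 2 - 1)) * (x - n) = (n ^ 2 - 1) * (q * (x - n)) := by ring
      rw [this]
      apply mul_le_mul_of_nonneg_left h3
      nlinarith
    nlinarith
  · rw [h] at key hz
    have h1 : q * (x - n) = d ^ 2 := by linarith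
    have h2 : c * d = q * (n ^ 2 - 1) := by linarith
    have h3 : b * c = (n ^ 2 - 1) * d + n * c := by rw [he] at hb; linear_combination -hb
    -- `q c (x - n) = c d ^ 2 = q (n ^ 2 - 1) d`
    have h4 : q * (c * (x - n)) = q * ((n ^ 2 - 1) * d) := by
      linear_combination c * h1 + d * h2
    have h5 : c * (x - n) = (n ^ 2 - 1) * d := mul_left_cancel₀ hqpos.ne' h4
    have h6 : c * x = c * b := by linear_combination h5 - h3
    exact mul_left_cancel₀ (by omega) h6
  · exfalso
    have h1 : 1 ≤ z := h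
    have hxn : 0 < x + n := by linarith
    have h2 : x + n ≤ z * (x + n) := le_mul_of_one_le_left hxn.le h1
    have h3 : 0 ≤ q * (n ^ 2 - 1) := by
      apply mul_nonneg hqpos.le
      nlinarith
    have h4 : x < c * d := by linarith
    have h5 : c * d ≤ n * d := by nlinarith
    linarith

/-- **Theorem.** Let `(d k, …, d 0)_b` be a shifted-symmetric `(n, b)`-palintiple. If a
`(k + 3)`-digit `(n', b')`-palintiple has the carries `(0, d k, …, d 0, 0)`, then `n' = b`. -/
theorem result (n b k : ℕ) (d c : ℕ → ℕ) (hp : IsPalintiple n b k d) (hc : IsCarries n b k d c)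
    (hs : ShiftedSymmetric k c) (n' b' : ℕ) (d' c' : ℕ → ℕ) (hp' : IsPalintiple n' b' (k + 2) d')
    (hc' : IsCarries n' b' (k + 2) d' c') (hcd : CarriesAreDigits k d c') : n' = b := by
  obtain ⟨hn, hnb, hb3, hk, hdb, hd0, -⟩ := hp
  obtain ⟨hn', hnb', -, -, hdb', -, -⟩ := hp'
  have hcl := carry_lt (by omega) hdb hc
  have hcl' := carry_lt (by omega) hdb' hc'
  obtain ⟨hc0, hck, hcol⟩ := hc
  obtain ⟨hc0', hck', hcol'⟩ := hc'
  obtain ⟨-, hdig, hlast⟩ := hcd
  -- the columns of the given palintiple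
  have e0 := hcol 0 (by omega)
  have ek := hcol k le_rfl
  have hsk := hs k le_rfl
  simp only [Nat.sub_zero, zero_add, hc0, add_zero, Nat.sub_self, hck, mul_zero] at e0 ek hsk
  rw [hsk] at ek
  -- the columns of the derived palintiple
  have f0 := hcol' 0 (by omega)
  have f1 := hcol' 1 (by omega)
  have fk1 := hcol' (k + 1) (by omega)
  have fk2 := hcol' (k + 2) le_rfl
  have g1 : c' 1 = d 0 := by simpa using hdig 0 (by omega)
  have g2 : c' 2 = d 1 := hdig 1 hk
  have g3 : c' (k + 1) = d k := hdig k le_rfl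
  have s1 : k + 2 - 1 = k + 1 := by omega
  have s2 : k + 2 - (k + 1) = 1 := by omega
  simp only [Nat.sub_zero, zero_add, hc0', add_zero, Nat.sub_self, s1, s2,
    show 1 + 1 = 2 by norm_num, show k + 1 + 1 = k + 2 by ring, hck', hlast, mul_zero, g1, g2,
    g3] at f0 f1 fk1 fk2
  have hbound : d k < n' := by rw [← g3]; exact hcl' (k + 1) (by omega)
  have hc1n : c 1 < n := hcl 1 (by omega)
  have hc1 : 1 ≤ c 1 := by
    rcases Nat.eq_zero_or_pos (c 1) with h | h
    · exfalso
      rw [h] at e0 ek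
      simp only [mul_zero, add_zero] at e0 ek
      have : 0 < d 0 := Nat.pos_of_ne_zero hd0
      rw [← ek] at e0
      nlinarith [Nat.mul_le_mul hn.le hn.le]
    · exact h
  zify at e0 ek f0 f1 fk1 fk2 hbound hc1n hc1 hn hn'
  have hd0' : (1 : ℤ) ≤ d 0 := by
    have : 1 ≤ d 0 := Nat.one_le_iff_ne_zero.2 hd0
    exact_mod_cast this
  have hgoal : (n' : ℤ) = b := by
    refine core (n := n) (x := n') (b := b) (c := c 1) (d := d 0) (e := d k)
      (q := (n' : ℤ) * ((d 1 : ℤ) * d' 0 - d' 1 * d 0) - d 0 * d k) hn hc1 hc1n hd0'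
      (by linear_combination -ek) (by linear_combination e0) hbound ?_
    -- eliminate the digits `d' (k + 2)` and `d' (k + 1)`
    have h1 : ((n' : ℤ) ^ 2 - 1) * d' 0 = b' * d 0 := by
      linear_combination f0 + (n' : ℤ) * fk2
    have h2 : ((n' : ℤ) ^ 2 - 1) * d' 1 = b' * d 1 - d 0 - n' * d k := by
      linear_combination f1 + (n' : ℤ) * fk1
    linear_combination ((n' : ℤ) * d 0) * h2 - (n' : ℤ) * d 1 * h1
  exact_mod_cast hgoal

end Pool.Agent.Results.MP_6bbb8b_nt.MultiplierIsBase
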